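import Mathlib.Algebra.MvPolynomial.Derivation
import Mathlib.Algebra.MvPolynomial.PDeriv
import Mathlib.Algebra.MvPolynomial.NoZeroDivisors
import Mathlib.RingTheory.MvPolynomial.Homogeneous
import Mathlib.LinearAlgebra.Dual.Lemmas
import Mathlib.LinearAlgebra.StdBasis
import Mathlib.Tactic

/-!
Universal derivations of multiarrangements do not localize.
-/

set_option autoImplicit false

namespace Pool.Agent.Results.MP_63137b_co.LocalizationFails

open MvPolynomial Module

variable {K : Type*} [Field K] {ι : Type*} [Fintype ι] {W : Type*} [AddCommGroup W] [Module K W]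

/-- The linear form `α` on `W` as a polynomial in the coordinates of the basis `b`. -/
noncomputable def form (b : Basis ι K W) (α : Dual K W) : MvPolynomial ι K :=
  ∑ i, C (α (b i)) * X i

/-- The logarithmic derivation module `D(A,m)`: derivations `θ` of the polynomial ring such that
`θ(α_H)` is divisible by `α_H ^ m(H)` for all `H`. -/
def LogDer (b : Basis ι K W) {I : Type*} (α : I → Dual K W) (m : I → ℕ) :
    Set (Derivation K (MvPolynomial ι K) (MvPolynomial ι K)) :=
  {θ | ∀ H, (form b (α H)) ^ m H ∣ θ (form b (α H))}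

/-- `∇_φ θ = ∑ φ(f_i) ∂_i` for `θ = ∑ f_i ∂_i`. -/
noncomputable def nabla (φ θ : Derivation K (MvPolynomial ι K) (MvPolynomial ι K)) :
    Derivation K (MvPolynomial ι K) (MvPolynomial ι K) :=
  mkDerivation K (fun i => φ (θ (X i)))

/-- Homogeneous derivations: all coefficients are homogeneous of one degree. -/
def IsHomog (θ : Derivation K (MvPolynomial ι K) (MvPolynomial ι K)) : Prop :=
  ∃ e : ℕ, ∀ i, (θ (X i)).IsHomogeneous e

/-- `θ` is `m`-universal: it is homogeneous, lies in `D(A,m+1)`, and `φ ↦ ∇_φ θ` is a bijection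
from all derivations onto `D(A,m)`. -/
def IsUniversal (b : Basis ι K W) {I : Type*} (α : I → Dual K W) (m : I → ℕ)
    (θ : Derivation K (MvPolynomial ι K) (MvPolynomial ι K)) : Prop :=
  IsHomog θ ∧ θ ∈ LogDer b α (fun H => m H + 1) ∧ (∀ φ, nabla φ θ ∈ LogDer b α m) ∧
    ∀ ψ ∈ LogDer b α m, ∃! φ, nabla φ θ = ψ

/-- `(A,μ)` (with `μ ≥ 1`) admits a universal derivation. -/
def AdmitsUniversal (b : Basis ι K W) {I : Type*} (α : I → Dual K W) (μ : I → ℕ) : Prop :=
  ∃ θ, IsUniversal b α (fun H => μ H - 1) θ

theorem nabla_apply_X (φ θ : Derivation K (MvPolynomial ι K) (MvPolynomial ι K)) (i : ι) :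
    nabla φ θ (X i) = φ (θ (X i)) := by
  simp [nabla, mkDerivation_X]

theorem der_form (b : Basis ι K W) (θ : Derivation K (MvPolynomial ι K) (MvPolynomial ι K))
    (α : Dual K W) : θ (form b α) = ∑ i, C (α (b i)) * θ (X i) := by
  simp only [form, map_sum]
  refine Finset.sum_congr rfl fun i _ => ?_
  rw [Derivation.leibniz]
  have : θ (C (α (b i))) = 0 := Derivation.map_algebraMap θ _
  rw [this]; simp

theorem nabla_form (b : Basis ι K W) (φ θ : Derivation K (MvPolynomial ι K) (MvPolynomial ι K))
    (α : Dual K W) : nabla φ θ (form b α) = φ (θ (form b α)) := by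
  rw [der_form, der_form, map_sum]
  refine Finset.sum_congr rfl fun i _ => ?_
  rw [nabla_apply_X, Derivation.leibniz]
  have : φ (C (α (b i))) = 0 := Derivation.map_algebraMap φ _
  rw [this]; simp

/-- The derivation with coefficient vector `w ⊗ p + w' ⊗ p'`. -/
noncomputable def vecDer (b : Basis ι K W) (w w' : W) (p p' : MvPolynomial ι K) :
    Derivation K (MvPolynomial ι K) (MvPolynomial ι K) :=
  mkDerivation K (fun i => C (b.repr w i) * p + C (b.repr w' i) * p')

theorem vecDer_form (b : Basis ι K W) (w w' : W) (p p' : MvPolynomial ι K) (α : Dual K W) :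
    vecDer b w w' p p' (form b α) = C (α w) * p + C (α w') * p' := by
  rw [der_form]
  have h : ∀ v : W, α v = ∑ i, b.repr v i * α (b i) := by
    intro v
    conv_lhs => rw [← b.sum_repr v]
    rw [map_sum]
    simp
  simp only [vecDer, mkDerivation_X]
  rw [h w, h w', map_sum, map_sum, Finset.sum_mul, Finset.sum_mul, ← Finset.sum_add_distrib]
  refine Finset.sum_congr rfl fun i _ => ?_
  simp only [C_mul]
  ring

theorem form_homog (b : Basis ι K W) (α : Dual K W) : (form b α).IsHomogeneous 1 := by
  refine IsHomogeneous.sum _ _ _ fun i _ => ?_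
  simpa using (isHomogeneous_C _ (α (b i))).mul (isHomogeneous_X _ i)

theorem form_ne_zero (b : Basis ι K W) {α : Dual K W} (h : α ≠ 0) : form b α ≠ 0 := by
  classical
  intro h0
  apply h
  refine b.ext fun j => ?_
  have := congrArg (coeff (Finsupp.single j 1)) h0
  simp only [form, coeff_sum, coeff_C_mul, coeff_zero] at this
  rw [Finset.sum_eq_single j] at this
  · simpa using this
  · intro i _ hij
    rw [coeff_X]
    simp [Finsupp.single_left_inj, hij]
  · simp

/-- The value of a derivation at a homogeneous polynomial of degree `≠ 1` has constant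
coefficient zero. -/
theorem constCoeff_der {p : MvPolynomial ι K} {e : ℕ} (hp : p.IsHomogeneous e) (he : e ≠ 1)
    (φ : Derivation K (MvPolynomial ι K) (MvPolynomial ι K)) : constantCoeff (φ p) = 0 := by
  classical
  have hs : ∀ x, (∑ i, φ (X i) • (pderiv i : Derivation K (MvPolynomial ι K) (MvPolynomial ι K))) x
      = ∑ i, (φ (X i) • (pderiv i : Derivation K (MvPolynomial ι K) (MvPolynomial ι K))) x := by
    intro x
    have := map_sum (Derivation.coeFnAddMonoidHom (R := K) (A := MvPolynomial ι K)
      (M := MvPolynomial ι K))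
      (fun i => φ (X i) • (pderiv i : Derivation K (MvPolynomial ι K) (MvPolynomial ι K)))
      Finset.univ
    have h2 := congrFun this x
    rw [Finset.sum_apply] at h2
    exact h2
  have hφ : φ = ∑ i, φ (X i) • (pderiv i : Derivation K (MvPolynomial ι K) (MvPolynomial ι K)) := by
    apply derivation_ext
    intro j
    rw [hs]
    rw [Finset.sum_eq_single j]
    · simp
    · intro i _ hij
      simp [pderiv_X_of_ne (Ne.symm hij)]
    · simp
  rw [hφ, hs, map_sum]
  refine Finset.sum_eq_zero fun i _ => ?_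
  rw [Derivation.smul_apply, smul_eq_mul, map_mul]
  have : constantCoeff (pderiv i p) = 0 := by
    rw [constantCoeff_eq, coeff_pderiv]
    have : coeff (0 + Finsupp.single i 1) p = 0 := by
      by_contra hne
      have := hp hne
      apply he
      rw [← this]
      simp [Finsupp.weight_single]
    rw [this]; simp
  rw [this, mul_zero]

/-- The key obstruction: two forms that are coordinates on a plane, with multiplicities `≥ 3`
and `1`. -/
theorem no_universal (b : Basis ι K W) {I : Type*} (α : I → Dual K W) (μ : I → ℕ)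
    (p r : I) (w w' : W) (hp : α p w = 1) (hp' : α p w' = 0) (hr : α r w = 0) (hr' : α r w' = 1)
    (hI : ∀ i, i = p ∨ i = r) (h3 : μ p = 3) (h1 : μ r = 1) : ¬ AdmitsUniversal b α μ := by
  classical
  rintro ⟨θ, ⟨e, he⟩, hθ, -, hsurj⟩
  have hpr : p ≠ r := by
    rintro rfl
    rw [hr] at hp; exact zero_ne_one hp
  have hp0 : α p ≠ 0 := by
    intro h; rw [h] at hp; simp at hp
  have hhom : ∀ β : Dual K W, (θ (form b β)).IsHomogeneous e := by
    intro β
    rw [der_form]
    refine IsHomogeneous.sum _ _ _ fun i _ => ?_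
    simpa using (isHomogeneous_C _ (β (b i))).mul (he i)
  -- the derivation `∂_r`
  have hmem1 : vecDer b w w' 0 1 ∈ LogDer b α (fun H => μ H - 1) := by
    intro H
    rw [vecDer_form]
    rcases hI H with rfl | rfl
    · simp [hp']
    · simp [h1]
  obtain ⟨φ1, hφ1, -⟩ := hsurj _ hmem1
  have e1 : φ1 (θ (form b (α r))) = 1 := by
    rw [← nabla_form, hφ1, vecDer_form]
    simp [hr']
  have he1 : e = 1 := by
    by_contra hne
    have := constCoeff_der (hhom (α r)) hne φ1
    rw [e1] at this
    simp at this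
  subst he1
  have hz : θ (form b (α p)) = 0 := by
    by_contra hne
    have hdvd := hθ p
    simp only [h3] at hdvd
    have h3' : (form b (α p)) ^ 3 ∣ θ (form b (α p)) := hdvd
    obtain ⟨c, hc⟩ := h3'
    have hc0 : c ≠ 0 := by
      rintro rfl; rw [mul_zero] at hc; exact hne hc
    have hf0 := form_ne_zero b hp0
    have d1 : (θ (form b (α p))).totalDegree = 1 := (hhom (α p)).totalDegree hne
    rw [hc, totalDegree_mul_of_isDomain (pow_ne_zero 3 hf0) hc0,
      (((form_homog b (α p)).pow 3).totalDegree (pow_ne_zero 3 hf0))] at d1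
    omega
  have hmem2 : vecDer b w w' ((form b (α p)) ^ 2) 0 ∈ LogDer b α (fun H => μ H - 1) := by
    intro H
    rw [vecDer_form]
    rcases hI H with rfl | rfl
    · simp [hp, h3]
    · simp [h1]
  obtain ⟨φ2, hφ2, -⟩ := hsurj _ hmem2
  have e2 : φ2 (θ (form b (α p))) = (form b (α p)) ^ 2 := by
    rw [← nabla_form, hφ2, vecDer_form]
    simp [hp]
  rw [hz, map_zero] at e2
  exact pow_ne_zero 2 (form_ne_zero b hp0) e2.symm

/-- The forms `x_0, x_1, x_2, x_1 - x_2, x_2 - x_0, x_0 - x_1` of the braid arrangement. -/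
def braid (K : Type*) [Field K] : Fin 3 ⊕ Fin 3 → Dual K (Fin 3 → K)
  | Sum.inl i => (LinearMap.proj i : (Fin 3 → K) →ₗ[K] K)
  | Sum.inr i => (LinearMap.proj (i + 1) : (Fin 3 → K) →ₗ[K] K) - LinearMap.proj (i + 2)

/-- Multiplicity `3` on `x_i = 0`, `1` on `x_i = x_j`. -/
def mult : Fin 3 ⊕ Fin 3 → ℕ
  | Sum.inl _ => 3
  | Sum.inr _ => 1

theorem braid_inl {K : Type*} [Field K] (i : Fin 3) (v : Fin 3 → K) :
    braid K (Sum.inl i) v = v i := rfl

theorem braid_inr {K : Type*} [Field K] (i : Fin 3) (v : Fin 3 → K) :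
    braid K (Sum.inr i) v = v (i + 1) - v (i + 2) := rfl

theorem braid_ker_inj {K : Type*} [Field K] :
    Function.Injective (fun H => LinearMap.ker (braid K H)) := by
  intro H H' h
  have key : ∀ v, braid K H v = 0 ↔ braid K H' v = 0 := by
    intro v
    have := congrArg (fun S => v ∈ S) h
    simpa using this
  have k0 := key (Pi.single 0 1)
  have k1 := key (Pi.single 1 1)
  have k2 := key (Pi.single 2 1)
  rcases H with i | i <;> rcases H' with j | j <;>
    simp only [braid_inl, braid_inr] at k0 k1 k2 <;> fin_cases i <;> fin_cases j <;>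
    simp_all [Pi.single_apply]

theorem braid_ne_zero {K : Type*} [Field K] (H : Fin 3 ⊕ Fin 3) : braid K H ≠ 0 := by
  intro h
  have key : ∀ v, braid K H v = 0 := by intro v; rw [h]; rfl
  have k0 := key (Pi.single 0 1)
  have k1 := key (Pi.single 1 1)
  have k2 := key (Pi.single 2 1)
  rcases H with i | i <;> simp only [braid_inl, braid_inr] at k0 k1 k2 <;> fin_cases i <;>
    simp_all [Pi.single_apply]

/-- The derivation `x_0^3 ∂_0 + x_1^3 ∂_1 + x_2^3 ∂_2`. -/
noncomputable def cubic (K : Type*) [Field K] :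
    Derivation K (MvPolynomial (Fin 3) K) (MvPolynomial (Fin 3) K) :=
  mkDerivation K (fun i => X i ^ 3)

theorem form_inl {K : Type*} [Field K] (i : Fin 3) :
    form (Pi.basisFun K (Fin 3)) (braid K (Sum.inl i)) = X i := by
  fin_cases i <;> simp [form, braid_inl, Fin.sum_univ_three, Pi.basisFun_apply, Pi.single_apply]

theorem form_inr {K : Type*} [Field K] (i : Fin 3) :
    form (Pi.basisFun K (Fin 3)) (braid K (Sum.inr i)) = X (i + 1) - X (i + 2) := by
  fin_cases i <;> simp [form, braid_inr, Fin.sum_univ_three, Pi.basisFun_apply, Pi.single_apply] <;>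
    ring

theorem cubic_universal {K : Type*} [Field K] [CharZero K] :
    IsUniversal (Pi.basisFun K (Fin 3)) (braid K) (fun H => mult H - 1) (cubic K) := by
  classical
  have hX : ∀ i, cubic K (X i) = X i ^ 3 := fun i => by simp [cubic, mkDerivation_X]
  have h3 : (3 : MvPolynomial (Fin 3) K) = C 3 := by
    rw [map_ofNat]
  have h3' : (C (3⁻¹) * 3 : MvPolynomial (Fin 3) K) = 1 := by
    rw [h3, ← C_mul, inv_mul_cancel₀ (by norm_num), C_1]
  refine ⟨⟨3, fun i => ?_⟩, ?_, ?_, ?_⟩
  · rw [hX]
    simpa using (isHomogeneous_X K i).pow 3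
  · intro H
    rcases H with i | i
    · rw [form_inl, hX]; exact dvd_of_eq (by simp [mult])
    · rw [form_inr, map_sub, hX, hX]
      have : (X (i + 1) ^ 3 - X (i + 2) ^ 3 : MvPolynomial (Fin 3) K) =
        (X (i + 1) - X (i + 2)) * (X (i + 1) ^ 2 + X (i + 1) * X (i + 2) + X (i + 2) ^ 2) := by ring
      rw [this]
      simpa [mult] using dvd_mul_right _ _
  · intro φ H
    rcases H with i | i
    · rw [form_inl, nabla_apply_X, hX, Derivation.leibniz_pow]
      simp only [mult, smul_eq_mul, nsmul_eq_mul]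
      exact ⟨3 * φ (X i), by ring⟩
    · simp [mult]
  · intro ψ hψ
    have hd : ∀ i, ∃ c, ψ (X i) = X i ^ 2 * c := by
      intro i
      have := hψ (Sum.inl i)
      rw [form_inl] at this
      have h2 : X i ^ 2 ∣ ψ (X i) := by simpa [mult] using this
      exact h2
    choose c hc using hd
    refine ⟨mkDerivation K (fun i => C (3⁻¹) * c i), ?_, ?_⟩
    · apply derivation_ext
      intro i
      rw [nabla_apply_X, hX, Derivation.leibniz_pow, mkDerivation_X, hc]
      simp only [smul_eq_mul, nsmul_eq_mul]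
      have : ((3 : ℕ) : MvPolynomial (Fin 3) K) * (X i ^ (3 - 1) * (C (3⁻¹) * c i)) =
        (C (3⁻¹) * 3) * (X i ^ 2 * c i) := by push_cast; ring
      rw [this, h3', one_mul]
    · intro φ hφ
      apply derivation_ext
      intro i
      have h1 : nabla φ (cubic K) (X i) = ψ (X i) := by rw [hφ]
      rw [nabla_apply_X, hX, Derivation.leibniz_pow, hc] at h1
      simp only [smul_eq_mul, nsmul_eq_mul] at h1
      rw [mkDerivation_X]
      have h2 : (X i ^ 2 : MvPolynomial (Fin 3) K) * (3 * φ (X i)) = X i ^ 2 * c i := by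
        rw [← h1]; push_cast; ring
      have h4 := mul_left_cancel₀ (pow_ne_zero 2 (X_ne_zero i)) h2
      rw [← h4, ← mul_assoc, h3', one_mul]

/-- The intersection `X = {x_0 = 0, x_1 = x_2}`. -/
def flat (K : Type*) [Field K] : Submodule K (Fin 3 → K) :=
  ⨅ H ∈ ({Sum.inl 0, Sum.inr 0} : Set (Fin 3 ⊕ Fin 3)), LinearMap.ker (braid K H)

theorem mem_flat {K : Type*} [Field K] (v : Fin 3 → K) : v ∈ flat K ↔ v 0 = 0 ∧ v 1 = v 2 := by
  simp [flat, Submodule.mem_iInf, braid_inl, braid_inr, sub_eq_zero]

/-- For every field of characteristic zero there is a multiarrangement `(A,μ)`, `μ ≥ 1`, in `K^3`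
with a universal derivation, and an intersection `X` of hyperplanes of `A`, such that
`(A_X, μ_X)`, as a multiarrangement in `K^3 / X`, admits no universal derivation. -/
theorem result : ∀ (K : Type) [Field K] [CharZero K],
    ∃ (I : Type) (_ : Fintype I) (α : I → Dual K (Fin 3 → K)) (μ : I → ℕ)
      (X : Submodule K (Fin 3 → K)),
      (∀ H, α H ≠ 0) ∧ Function.Injective (fun H => LinearMap.ker (α H)) ∧ (∀ H, 1 ≤ μ H) ∧
      (∃ B : Set I, X = ⨅ H ∈ B, LinearMap.ker (α H)) ∧
      AdmitsUniversal (Pi.basisFun K (Fin 3)) α μ ∧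
      ∀ (ι : Type) [Fintype ι] (b : Basis ι K ((Fin 3 → K) ⧸ X)),
        ¬ AdmitsUniversal b
          (fun H : {H : I // X ≤ LinearMap.ker (α H)} => X.liftQ (α H.1) H.2)
          (fun H => μ H.1) := by
  intro K _ _
  refine ⟨Fin 3 ⊕ Fin 3, inferInstance, braid K, mult, flat K, braid_ne_zero, braid_ker_inj,
    ?_, ⟨{Sum.inl 0, Sum.inr 0}, rfl⟩, ⟨cubic K, cubic_universal⟩, ?_⟩
  · rintro (i | i) <;> simp [mult]
  · intro ι _ b
    have hp : flat K ≤ LinearMap.ker (braid K (Sum.inl 0)) := by
      intro v hv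
      rw [mem_flat] at hv
      rw [LinearMap.mem_ker, braid_inl]; exact hv.1
    have hr : flat K ≤ LinearMap.ker (braid K (Sum.inr 0)) := by
      intro v hv
      rw [mem_flat] at hv
      rw [LinearMap.mem_ker, braid_inr]
      simpa [sub_eq_zero] using hv.2
    refine no_universal b _ _ ⟨Sum.inl 0, hp⟩ ⟨Sum.inr 0, hr⟩
      (Submodule.Quotient.mk (Pi.single 0 1)) (Submodule.Quotient.mk (Pi.single 1 1))
      ?_ ?_ ?_ ?_ ?_ rfl rfl
    · show braid K (Sum.inl 0) (Pi.single 0 1) = 1
      simp [braid_inl]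
    · show braid K (Sum.inl 0) (Pi.single 1 1) = 0
      simp [braid_inl]
    · show braid K (Sum.inr 0) (Pi.single 0 1) = 0
      simp [braid_inr]
    · show braid K (Sum.inr 0) (Pi.single 1 1) = 1
      simp [braid_inr]
    · rintro ⟨H, hH⟩
      have hv : (fun i => if i = 0 then 0 else 1 : Fin 3 → K) ∈ flat K := by
        rw [mem_flat]; simp
      have := hH hv
      rw [LinearMap.mem_ker] at this
      rcases H with i | i
      · left
        rw [braid_inl] at this
        fin_cases i
        · rfl
        · simp at this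
        · simp at this
      · right
        rw [braid_inr] at this
        fin_cases i
        · rfl
        · simp at this
        · simp at this

end Pool.Agent.Results.MP_63137b_co.LocalizationFails
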